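import Pool.Agent.Y933.KD.Fam
import Pool.Agent.Y933.KD.Primes

/-!
# The digits of the prime multiples `p * √2`

Let `ξ` be a real algebraic irrational number, for instance `√2`. The numbers `p * ξ + y`, `p ≤ M` a
prime, behave within their first `A log M` digits like random real numbers, for every constant `A`:
any `k` digits, in any bases, are jointly distributed like those of a random number, with an error
`O (M ^ (-δ))`; all but a proportion `M ^ (-c)` of these numbers have all words with the right
frequencies, in all bases and in all windows of digits; and the counts of words satisfy the central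
limit theorem.
-/

set_option autoImplicit false

open Filter Topology MeasureTheory

namespace Pool.Agent.Results.MP_0308e6_nt.DigitsAlongPrimes

/-- the primes up to `M` -/
def primes (M : ℕ) : Finset ℕ := (Finset.Icc 1 M).filter Nat.Prime

/-- the word of the `w` digits in base `b` of `x` which follow the first `n` digits after the point,
read as an integer between `0` and `b ^ w - 1` -/
noncomputable def word (b w n : ℕ) (x : ℝ) : ℕ :=
  ⌊(b : ℝ) ^ w * Int.fract ((b : ℝ) ^ n * x)⌋₊

/-- the mean of `F` over the words of `w` digits -/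
noncomputable def mean (b w : ℕ) (F : ℕ → ℝ) : ℝ :=
  (∑ c ∈ Finset.range (b ^ w), F c) / (b : ℝ) ^ w

/-- the covariance of the values of `F` at the two words of `w` digits at the beginning and at the
end of a random word `c` of `w + h` digits -/
noncomputable def covariance (b w : ℕ) (F : ℕ → ℝ) (h : ℕ) : ℝ :=
  (∑ c ∈ Finset.range (b ^ (w + h)), (F (c / b ^ h) - mean b w F) * (F (c % b ^ w) - mean b w F)) /
    (b : ℝ) ^ (w + h)

/-- the asymptotic variance of the word sums -/
noncomputable def variance (b w : ℕ) (F : ℕ → ℝ) : ℝ :=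
  covariance b w F 0 + 2 * ∑ h ∈ Finset.Ico 1 w, covariance b w F h

open Classical in
/-- Let `ξ` be a real algebraic irrational number.

(1) For all `B`, `k`, `A` there are `δ > 0` and `C` such that for all `M ≥ 2`, all real `y`, all bases
`b i ≤ B`, places `n i ≤ A log M` and intervals `[u i, v i)` in `[0, 1]`, `i < k`: the proportion of
the primes `p ≤ M` for which the fractional part of `b i ^ n i * (p * ξ + y)` lies in `[u i, v i)` for
all `i` differs from the Lebesgue measure of the set of the `t` in `[0, 1)` for which the fractional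
part of `b i ^ n i * t` lies in `[u i, v i)` for all `i` by at most `C * M ^ (-δ)`.

(2) For all `B`, `w`, `A` and `ε > 0` there are `c > 0` and `M₀` such that for all `M ≥ M₀` and all
real `y`, all but a proportion `M ^ (-c)` of the primes `p ≤ M` have the following property: for every
base `2 ≤ b ≤ B`, every word `j` of `k ≤ w` digits and all `s`, `N` with `s + N ≤ A log M`, the number
of the `i < N` such that the word of `k` digits after the first `s + i` digits of `p * ξ + y` is `j`
differs from `N / b ^ k` by at most `ε log M`.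

(3) Let `F` be a function of the words of `w` digits in base `b` whose asymptotic variance is
positive. If `N M → ∞` and `n M + N M ≤ A log M` for large `M`, then the proportion of the primes
`p ≤ M` for which the sum of `F` over the words at the places `n M + i`, `i < N M`, of `p * ξ + y M`
is at most `N M * mean + a * √(variance * N M)` tends, for every real `a`, to the value at `a` of the
distribution function of the standard normal distribution. -/
theorem result (ξ : ℝ) (halg : IsAlgebraic ℚ ξ) (hirr : Irrational ξ) :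
    (∀ (B k : ℕ) (A : ℝ), ∃ δ : ℝ, 0 < δ ∧ ∃ C : ℝ, ∀ M : ℕ, 2 ≤ M → ∀ (y : ℝ) (b n : Fin k → ℕ),
      (∀ i, 1 ≤ b i ∧ b i ≤ B) → (∀ i, (n i : ℝ) ≤ A * Real.log M) → ∀ u v : Fin k → ℝ,
      (∀ i, 0 ≤ u i) → (∀ i, v i ≤ 1) →
      |(((primes M).filter (fun p : ℕ => ∀ i,
          Int.fract ((b i : ℝ) ^ n i * (p * ξ + y)) ∈ Set.Ico (u i) (v i))).card : ℝ) /
          (primes M).card -
        (volume {t : ℝ | t ∈ Set.Ico (0 : ℝ) 1 ∧
          ∀ i, Int.fract ((b i : ℝ) ^ n i * t) ∈ Set.Ico (u i) (v i)}).toReal| ≤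
        C * (M : ℝ) ^ (-δ)) ∧
    (∀ (B w : ℕ) (A ε : ℝ), 0 < ε → ∃ c : ℝ, 0 < c ∧ ∃ M₀ : ℕ, ∀ M : ℕ, M₀ ≤ M → ∀ y : ℝ,
      (((primes M).filter (fun p : ℕ => ¬ ∀ b k j s N : ℕ, 2 ≤ b → b ≤ B → 1 ≤ k →
        k ≤ w → j < b ^ k → (s : ℝ) + N ≤ A * Real.log M →
        |(((Finset.range N).filter (fun i => word b k (s + i) (p * ξ + y) = j)).card : ℝ) -
          N / (b : ℝ) ^ k| ≤ ε * Real.log M)).card : ℝ) ≤ (primes M).card * (M : ℝ) ^ (-c)) ∧
    (∀ (b w : ℕ) (F : ℕ → ℝ), 2 ≤ b → 1 ≤ w → 0 < variance b w F →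
      ∀ (y : ℕ → ℝ) (A : ℝ) (n N : ℕ → ℕ), Tendsto N atTop atTop →
      (∀ᶠ M : ℕ in atTop, (n M : ℝ) + N M ≤ A * Real.log M) → ∀ a : ℝ,
      Tendsto (fun M : ℕ => (((primes M).filter (fun p : ℕ =>
        ∑ i ∈ Finset.range (N M), F (word b w (n M + i) (p * ξ + y M)) - N M * mean b w F ≤
          a * √(variance b w F * N M))).card : ℝ) / (primes M).card) atTop
        (𝓝 ((ProbabilityTheory.gaussianReal 0 1).real (Set.Iic a)))) := by
  refine ⟨fun B k A => ?_, fun B w A ε hε => ?_, fun b w F hb hw hF y A n N hN hnN a => ?_⟩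
  · obtain ⟨δ, hδ, C, h⟩ := Pool.Agent.Y933.KD.tests_gen (ι := ℕ) (Pool.Agent.Y933.KD.SPr_prob ξ)
      (Pool.Agent.Y933.KD.good_prime ξ halg hirr B k A)
    refine ⟨δ, hδ, C, fun M hM y b n hb hn u v hu hv => ?_⟩
    exact h M (by omega) (primes M) (fun p => p * ξ + y) ⟨hM, y, rfl⟩ b n hb hn u v hu hv
  · obtain ⟨c, hc, M0, h⟩ := Pool.Agent.Y933.KD.normal_gen (ι := ℕ) (B := B) (w := w) (A := A) hε
      (Pool.Agent.Y933.KD.SPr_prob ξ) (Pool.Agent.Y933.KD.good_prime ξ halg hirr B 1 A)
    refine ⟨c, hc, max M0 2, fun M hM y => ?_⟩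
    exact h M (le_of_max_le_left hM) (primes M) (fun p => p * ξ + y)
      ⟨le_of_max_le_right hM, y, rfl⟩
  · have h := Pool.Agent.Y933.KD.clt_gen (by omega : 1 ≤ b) hw F hF
      (Pool.Agent.Y933.KD.SPr_prob ξ)
      (fun k => Pool.Agent.Y933.KD.good_prime ξ halg hirr b k A)
      primes (fun M p => p * ξ + y M) (by
        filter_upwards [eventually_ge_atTop 2] with M hM
        exact ⟨Pool.Agent.Y933.KD.PR_nonempty hM, hM, y M, rfl⟩) n N hN hnN a
    refine h.congr fun M => ?_
    congr!

end Pool.Agent.Results.MP_0308e6_nt.DigitsAlongPrimes
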