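import Pool.Agent.Y933.KD.Norm2

/-!
# Almost all multiples of `√2` are normal up to a multiple of `log M` digits, in all bases

Let `ξ` be a real algebraic irrational number, for instance `√2`. For all but at most `M ^ (1 - c)`
of the integers `m` of an interval of length `M`, the number `m * ξ + y` has, in every base `b ≤ B`
and in every window of digits inside the first `A log M` digits, every word of at most `w` digits
with the right frequency, up to an error `ε log M` in the number of occurrences. Here `A`, `B`, `w`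
are arbitrary and `ε > 0` is arbitrarily small; `c > 0` depends on them.
-/

set_option autoImplicit false

namespace Pool.Agent.Results.MP_0308e6_nt.NormalUpToLogDigits

/-- the word of the `k` digits in base `b` of `x` which follow the first `n` digits after the point,
read as an integer between `0` and `b ^ k - 1` -/
noncomputable def word (b k n : ℕ) (x : ℝ) : ℕ :=
  ⌊(b : ℝ) ^ k * Int.fract ((b : ℝ) ^ n * x)⌋₊

open Classical in
/-- Let `ξ` be a real algebraic irrational number, for instance `√2`, and let `B`, `w`, `A` and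
`ε > 0` be given. There are `c > 0` and `M₀` such that for all `M ≥ M₀`, all `L` and all real `y`,
all but at most `M ^ (1 - c)` of the integers `m` in `(L, L + M]` have the following property: for
every base `2 ≤ b ≤ B`, every word `j` of `k ≤ w` digits and all `s`, `N` with `s + N ≤ A log M`, the
number of the `i < N` such that the word of `k` digits after the first `s + i` digits of `m * ξ + y`
is `j` differs from `N / b ^ k` by at most `ε log M`. -/
theorem result (ξ : ℝ) (halg : IsAlgebraic ℚ ξ) (hirr : Irrational ξ) (B w : ℕ) (A ε : ℝ)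
    (hε : 0 < ε) :
    ∃ c : ℝ, 0 < c ∧ ∃ M₀ : ℕ, ∀ M : ℕ, M₀ ≤ M → ∀ (L : ℕ) (y : ℝ),
      (((Finset.Ioc L (L + M)).filter (fun m : ℕ => ¬ ∀ b k j s N : ℕ, 2 ≤ b → b ≤ B → 1 ≤ k →
        k ≤ w → j < b ^ k → (s : ℝ) + N ≤ A * Real.log M →
        |(((Finset.range N).filter (fun i => word b k (s + i) (m * ξ + y) = j)).card : ℝ) -
          N / (b : ℝ) ^ k| ≤ ε * Real.log M)).card : ℝ) ≤ (M : ℝ) ^ (1 - c) := by
  obtain ⟨c, hc, M0, h⟩ := Pool.Agent.Y933.KD.normal_family (B := B) (w := max w 1)
    (le_max_right _ _) (A := A) hε (Pool.Agent.Y933.KD.SM_prob (fun _ : Fin 1 => ξ))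
    (Pool.Agent.Y933.KD.good_mult (fun _ : Fin 1 => ξ) 0 halg hirr B 1 A)
  refine ⟨c, hc, max M0 1, fun M hM L y => ?_⟩
  obtain ⟨U, hU, hP, hx⟩ := h M (le_of_max_le_left hM)
  have hM1 : 1 ≤ M := le_of_max_le_right hM
  have hMR : (0 : ℝ) < M := by exact_mod_cast hM1
  have h1 := hP _ ⟨_, Pool.Agent.Y933.KD.unif_shift L M ξ y⟩
  rw [Pool.Agent.Y933.KD.real_unif _ _ hU, Nat.card_Ioc, Nat.add_sub_cancel_left,
    div_le_iff₀ hMR] at h1
  refine le_trans ?_ (h1.trans (le_of_eq ?_))
  · refine Nat.cast_le.2 (Finset.card_le_card fun m hm => ?_)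
    rw [Finset.mem_filter] at hm ⊢
    refine ⟨hm.1, ?_⟩
    by_contra hmU
    apply hm.2
    intro b k j s N hb hbB hk hkw hj hsN
    have h2 := hx _ hmU b k j s N hb hbB hk (hkw.trans (le_max_left _ _)) hj hsN
    rw [Pool.Agent.Y933.KD.WS_ci (by omega)] at h2
    exact h2
  · nth_rewrite 2 [← Real.rpow_one (M : ℝ)]
    rw [← Real.rpow_add hMR]
    congr 1
    ring

end Pool.Agent.Results.MP_0308e6_nt.NormalUpToLogDigits
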