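import Pool.Agent.Y951.TR.Smooth
import Pool.Agent.Y951.TR.Fin

/-!
# Translates by fractions: nearly normal along many lengths, for `√2` and every real number

Let `q ≥ 2` be an integer, `B` a finite set of bases `b ≥ 2` prime to `q`, and `ε > 0`.  There is a
number `C` such that for EVERY real number `x`, every `K` and every length `N ≥ q ^ K`: all but at
most `C` of the `q ^ K` numbers `x + t / q ^ K`, `0 ≤ t < q ^ K`, are `ε`-normal at the length `N`
in all bases `b ∈ B`: the discrepancy of the first `N` shifts of the expansion is at most `ε`, so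
every word of `m` digits has frequency `b ^ (-m)` up to `ε` among the first `N` places.

Consequence: for every `x`, every sequence of lengths and all but at most `C / δ` of the infinitely
many numbers `r` of `ℤ[1/q]` in `[0, 1)`, the number `x + r` is `ε`-normal, in all bases `b ∈ B`,
along a subsequence of the lengths of upper density at least `1 - δ`.  For `x = √2` and the binary
digits: for every odd `q ≥ 3`, every `ε > 0` and all but finitely many `r` of `ℤ[1/q]` in `[0, 1)`,
the number of ones among the first `n` binary digits of the irrational algebraic number `√2 + r` is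
between `(1 / 2 - ε) n` and `(1 / 2 + ε) n` for a set of `n` of upper density at least `1 - ε`.
-/

set_option autoImplicit false

open Finset Filter

open scoped Classical

namespace Pool.Agent.Results.MP_0308e6_nt.TranslatesByFractions

/-- The discrepancy of `ξ, b ξ, …, b ^ (N - 1) ξ` modulo one is at most `ε`: for every interval
`[u, v)` in `[0, 1]` the number of these points whose fractional part is in `[u, v)` differs from
`(v - u) N` by at most `ε N`.  (The word of `m` digits in base `b` with value `j` stands in `ξ`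
right after the place `n` if and only if the fractional part of `b ^ n ξ` is in
`[j / b ^ m, (j + 1) / b ^ m)`.) -/
def NearlyNormal (b N : ℕ) (ξ ε : ℝ) : Prop :=
  ∀ u v : ℝ, 0 ≤ u → u ≤ v → v ≤ 1 →
    |(((range N).filter (fun n => Int.fract ((b : ℝ) ^ n * ξ) ∈ Set.Ico u v)).card : ℝ) -
      (v - u) * N| ≤ ε * N

/-- Along the sequence `ν 0, ν 1, …` the property `P` holds on a set of indices of upper density at
least `1 - δ`: for infinitely many `J` it holds for at least `(1 - δ) J` of the `ν j`, `j < J`. -/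
def OftenAlong (ν : ℕ → ℕ) (δ : ℝ) (P : ℕ → Prop) : Prop :=
  ∃ᶠ J : ℕ in atTop, (1 - δ) * J ≤ (((range J).filter (fun j => P (ν j))).card : ℝ)

/-- The numbers of `ℤ[1/q]` in `[0, 1)`: the fractions `t / q ^ k` with `0 ≤ t < q ^ k`. -/
def Frac (q : ℕ) : Set ℝ := {r | ∃ k t : ℕ, t < q ^ k ∧ r = t / (q : ℝ) ^ k}

/-- The number of ones among the first `n` binary digits of `ξ` after the point. -/
noncomputable def ones (ξ : ℝ) (n : ℕ) : ℕ := ((Icc 1 n).filter (fun k => ⌊ξ * 2 ^ k⌋ % 2 = 1)).card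

theorem result :
    (∀ q : ℕ, 2 ≤ q → ∀ B : Finset ℕ, (∀ b ∈ B, 2 ≤ b ∧ q.Coprime b) → ∀ ε : ℝ, 0 < ε →
      ∃ C : ℕ, ∀ x : ℝ,
        (∀ K N : ℕ, q ^ K ≤ N → ((range (q ^ K)).filter (fun t : ℕ =>
          ¬ ∀ b ∈ B, NearlyNormal b N (x + (t : ℝ) / (q : ℝ) ^ K) ε)).card ≤ C) ∧
        (∀ ν : ℕ → ℕ, Tendsto ν atTop atTop → ∀ δ : ℝ, 0 < δ →
          ({r | r ∈ Frac q ∧ ¬ OftenAlong ν δ (fun N => ∀ b ∈ B, NearlyNormal b N (x + r) ε)}.Finite ∧
          ({r | r ∈ Frac q ∧ ¬ OftenAlong ν δ (fun N => ∀ b ∈ B,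
            NearlyNormal b N (x + r) ε)}.ncard : ℝ) ≤ C / δ))) ∧
    (∀ q : ℕ, 3 ≤ q → Odd q → ∀ ε : ℝ, 0 < ε →
      {r | r ∈ Frac q ∧ ¬ OftenAlong id ε (fun n =>
        |(ones (Real.sqrt 2 + r) n : ℝ) - n / 2| ≤ ε * n)}.Finite) := by
  have main : ∀ q : ℕ, 2 ≤ q → ∀ B : Finset ℕ, (∀ b ∈ B, 2 ≤ b ∧ q.Coprime b) → ∀ ε : ℝ, 0 < ε →
      ∃ C : ℕ, ∀ x : ℝ,
        (∀ K N : ℕ, q ^ K ≤ N → ((range (q ^ K)).filter (fun t : ℕ =>
          ¬ ∀ b ∈ B, NearlyNormal b N (x + (t : ℝ) / (q : ℝ) ^ K) ε)).card ≤ C) ∧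
        (∀ ν : ℕ → ℕ, Tendsto ν atTop atTop → ∀ δ : ℝ, 0 < δ →
          ({r | r ∈ Frac q ∧ ¬ OftenAlong ν δ (fun N => ∀ b ∈ B, NearlyNormal b N (x + r) ε)}.Finite ∧
          ({r | r ∈ Frac q ∧ ¬ OftenAlong ν δ (fun N => ∀ b ∈ B,
            NearlyNormal b N (x + r) ε)}.ncard : ℝ) ≤ C / δ)) := by
    intro q hq B hB ε hε
    obtain ⟨C, hC⟩ := Pool.Agent.Y951.TR.smooth_all (q := q) (by omega) B hB hε
    refine ⟨C, fun x => ⟨fun K N h => ?_, fun ν hν δ hδ => ?_⟩⟩
    · have h1 := hC x (q ^ K) N (Nat.one_le_pow _ _ (by omega))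
        (fun p hp hpc => hp.dvd_of_dvd_pow hpc) h
      rw [Nat.cast_pow] at h1
      exact h1
    · have key : ∀ F : Finset ℝ, (∀ r ∈ F, r ∈ {r | r ∈ Frac q ∧ ¬ OftenAlong ν δ (fun N =>
          ∀ b ∈ B, NearlyNormal b N (x + r) ε)}) → (F.card : ℝ) ≤ C / δ := by
        intro F hF
        refine Pool.Agent.Y951.TR.group_often hq hC x hν hδ F fun r hr => ⟨(hF r hr).1, fun h =>
          (hF r hr).2 ?_⟩
        unfold OftenAlong
        refine Filter.Frequently.mono h fun J hJ =>
          hJ.trans (Nat.cast_le.2 (card_le_card fun j hj => ?_))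
        simp only [mem_filter] at hj ⊢
        exact hj
      have hfin : {r | r ∈ Frac q ∧ ¬ OftenAlong ν δ (fun N => ∀ b ∈ B,
          NearlyNormal b N (x + r) ε)}.Finite := by
        by_contra hinf
        obtain ⟨n, hn⟩ := exists_nat_gt ((C : ℝ) / δ)
        obtain ⟨F, hF, hcard⟩ := Set.Infinite.exists_subset_card_eq hinf n
        have h1 := key F (fun k hk => hF hk)
        rw [hcard] at h1
        linarith
      refine ⟨hfin, ?_⟩
      rw [Set.ncard_eq_toFinset_card _ hfin]
      exact key _ fun r hr => (Set.Finite.mem_toFinset hfin).1 hr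
  refine ⟨main, fun q hq hodd ε hε => ?_⟩
  obtain ⟨C, hC⟩ := main q (by omega) {2} (by
    intro b hb
    rw [mem_singleton.1 hb]
    exact ⟨le_rfl, hodd.coprime_two_right⟩) ε hε
  refine ((hC (Real.sqrt 2)).2 id tendsto_id ε hε).1.subset ?_
  intro r hr
  refine ⟨hr.1, fun h => hr.2 ?_⟩
  refine Filter.Frequently.mono h fun J hJ => hJ.trans (Nat.cast_le.2 (card_le_card fun j hj => ?_))
  simp only [mem_filter, id] at hj ⊢
  refine ⟨hj.1, ?_⟩
  have h4 : Pool.Agent.Y951.TR.Disc 2 j (Real.sqrt 2 + r) ε := hj.2 2 (mem_singleton_self 2)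
  have h5 := Pool.Agent.Y951.TR.ones_of_disc h4
  unfold ones
  convert h5 using 6

end Pool.Agent.Results.MP_0308e6_nt.TranslatesByFractions
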