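import Mathlib
import Pool.Agent.Y951.SW.Alg

/-!
Every word stands often in every window, however short in proportion, of the digits of almost all
the numbers `a q ^ n √2`.
-/

set_option autoImplicit false

/-- Let `b, q ≥ 2`, where `b` and `q` are coprime (for `b = 2`: `q` odd) or `b = q v` with `v ≥ 2`
coprime to `q`. Let `C, ε, δ > 0` be arbitrarily small and `k, R` arbitrary. If `M` is large, then
for all `J`, all `a ≥ 1` and all but at most `δ M` of the numbers `n` with `J ≤ n < J + M` the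
following holds: for every `u ≤ R (J + M)` every word of `k` digits in base `b` stands at least
`M ^ (1 - ε)` times in the window of the digits of `a q ^ n √2` between the `u`-th digit and the
place `u + C (u + log_b (a q ^ n)) + log_b a`. The word with value `W` (its digits are those of `W`
in base `b`, with leading zeros) stands in `y` right after the `i`-th digit if and only if
`⌊b ^ (i + k) y⌋ mod b ^ k = W`. -/
theorem Pool.Agent.Results.MP_0308e6_nt.WordsInAllWindows.result (b q : ℕ) (hb : 2 ≤ b)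
    (hq : 2 ≤ q)
    (hbq : Nat.Coprime b q ∨ ∃ v : ℕ, 2 ≤ v ∧ Nat.Coprime q v ∧ b = q * v) (k R : ℕ)
    (C ε δ : ℝ) (hC : 0 < C) (hε : 0 < ε) (hδ : 0 < δ) :
    ∃ M₀ : ℕ, ∀ M J a : ℕ, M₀ ≤ M → 1 ≤ a →
      (({n : ℕ | J ≤ n ∧ n < J + M ∧ ¬ ∀ u : ℕ, u ≤ R * (J + M) → ∀ W : ℕ, W < b ^ k →
        (M : ℝ) ^ (1 - ε) ≤ (({i : ℕ | u ≤ i ∧
          (i : ℝ) + k ≤ u + C * (u + Real.log (a * (q : ℝ) ^ n) / Real.log b) +
            Real.log a / Real.log b ∧
          ⌊(b : ℝ) ^ (i + k) * (a * (q : ℝ) ^ n * Real.sqrt 2)⌋ % ((b : ℤ) ^ k) =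
            (W : ℤ)}.ncard : ℕ) : ℝ)}.ncard : ℕ) : ℝ) ≤ δ * M := by
  classical
  have halg : IsAlgebraic ℚ (Real.sqrt 2) := by
    refine ⟨Polynomial.X ^ 2 - Polynomial.C 2, Polynomial.X_pow_sub_C_ne_zero (by norm_num) _, ?_⟩
    rw [map_sub, map_pow, Polynomial.aeval_X, Polynomial.aeval_C, Real.sq_sqrt (by norm_num)]
    norm_num
  obtain ⟨M₀, hM₀⟩ := Pool.Agent.Y951.SW.words_alg halg irrational_sqrt_two b q hb hq hbq k R C ε δ
    hC hε hδ
  refine ⟨M₀, fun M J a hM ha => ?_⟩
  refine le_trans (Nat.cast_le.2 ?_) (hM₀ M J a hM ha)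
  refine le_trans (Set.ncard_le_ncard ?_ ((Finset.finite_toSet _).image (fun t => J + t)))
    ((Set.ncard_image_le (Finset.finite_toSet _)).trans (Set.ncard_coe_finset _).le)
  rintro n ⟨h1, h2, h3⟩
  refine ⟨n - J, ?_, by simp only; omega⟩
  rw [Finset.mem_coe, Finset.mem_filter, Finset.mem_range]
  refine ⟨by omega, fun h4 => h3 fun u hu W hW => ?_⟩
  have h5 := h4 u hu W hW
  have e1 : J + (n - J) = n := by omega
  rw [e1] at h5
  have haR1 : (1 : ℝ) ≤ a := by exact_mod_cast ha
  have haR : (0 : ℝ) < a := by linarith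
  have hqR : (0 : ℝ) < (q : ℝ) ^ n := by positivity
  have hbR : (2 : ℝ) ≤ b := by exact_mod_cast hb
  have hlb : 0 < Real.log b := Real.log_pos (by linarith)
  have hla : 0 ≤ Real.log a := Real.log_nonneg haR1
  have e2 : Real.log (a * (q : ℝ) ^ n) = Real.log a + (n : ℝ) * Real.log q := by
    rw [Real.log_mul haR.ne' hqR.ne', Real.log_pow]
  rw [e2]
  refine h5.trans (Nat.cast_le.2 (Set.ncard_le_ncard ?_ ?_))
  · rintro i ⟨h6, h7, h8⟩
    refine ⟨h6, h7.trans ?_, h8⟩
    have h9 : 0 ≤ Real.log a / Real.log b := by positivity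
    have e3 : C * ((u : ℝ) + (Real.log a + (n : ℝ) * Real.log q) / Real.log b) =
        C * (u + (n : ℝ) * Real.log q / Real.log b) + C * (Real.log a / Real.log b) := by ring
    rw [e3]
    have h10 : (1 + C / 2) * (Real.log a / Real.log b) ≤
        C * (Real.log a / Real.log b) + Real.log a / Real.log b := by nlinarith
    linarith
  · exact Pool.Agent.Y949.LW.occ_finite b k (a * (q : ℝ) ^ n * Real.sqrt 2) u _ W
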